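import Mathlib

/-!
The tree evaluation problem and (thrifty) nondeterministic `k`-way branching programs, as defined by
Cook, McKenzie, Wehr, Braverman and Santhanam.
-/

namespace Pool.Agent.MP_47ff19_lc

/-- The input variables of tree evaluation on the complete binary tree with `n + 1` levels and values
in `Fin k`: a tree with one level is a leaf, whose value is one variable; otherwise there is one
variable for each entry `f (a, b)` of the table of the function at the root, and there are the
variables of the left and of the right subtree. -/
inductive Var (k : ℕ) : ℕ → Type
  | leaf : Var k 0
  | node {n : ℕ} (a b : Fin k) : Var k (n + 1)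
  | left {n : ℕ} (v : Var k n) : Var k (n + 1)
  | right {n : ℕ} (v : Var k n) : Var k (n + 1)

/-- The value of the root on the input `I`. -/
def value {k : ℕ} : (n : ℕ) → (Var k n → Fin k) → Fin k
  | 0, I => I Var.leaf
  | n + 1, I =>
    I (Var.node (value n fun v => I (Var.left v)) (value n fun v => I (Var.right v)))

/-- The variable `v` is thrifty for the input `I`: it is a leaf, or it is the entry of the table of an
internal node at the pair of correct values of the two children of that node. -/
inductive Thrifty {k : ℕ} : (n : ℕ) → (Var k n → Fin k) → Var k n → Prop
  | leaf (I : Var k 0 → Fin k) : Thrifty 0 I Var.leaf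
  | node {n : ℕ} (I : Var k (n + 1) → Fin k) : Thrifty (n + 1) I
      (Var.node (value n fun v => I (Var.left v)) (value n fun v => I (Var.right v)))
  | left {n : ℕ} (I : Var k (n + 1) → Fin k) (v : Var k n) :
      Thrifty n (fun u => I (Var.left u)) v → Thrifty (n + 1) I (Var.left v)
  | right {n : ℕ} (I : Var k (n + 1) → Fin k) (v : Var k n) :
      Thrifty n (fun u => I (Var.right u)) v → Thrifty (n + 1) I (Var.right v)

/-- A nondeterministic `k`-way branching program with input variables `V` and outputs `R`. It has
`inner` non-final states, each labelled by a variable, and one final state for each output; the edges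
leave non-final states and are labelled by elements of `Fin k`. -/
structure NBP (V R : Type) (k : ℕ) where
  inner : ℕ
  start : Fin inner ⊕ R
  label : Fin inner → V
  edge : Fin inner → Fin k → Fin inner ⊕ R → Prop

/-- There is a path from `s` to `t` of edges activated by the input `I`. -/
def NBP.Reach {V R : Type} {k : ℕ} (B : NBP V R k) (I : V → Fin k) :
    Fin B.inner ⊕ R → Fin B.inner ⊕ R → Prop :=
  Relation.ReflTransGen fun s t => ∃ q, s = Sum.inl q ∧ B.edge q (I (B.label q)) t

/-- On every input some computation ends in a final state, and every computation that ends in a final
state ends in the correct one. -/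
def NBP.Computes {V R : Type} {k : ℕ} (B : NBP V R k) (g : (V → Fin k) → R) : Prop :=
  ∀ I r, B.Reach I B.start (Sum.inr r) ↔ r = g I

/-- On every input, every computation that ends in a final state queries thrifty variables only. -/
def NBP.IsThrifty {R : Type} {k n : ℕ} (B : NBP (Var k n) R k) : Prop :=
  ∀ I q r, B.Reach I B.start (Sum.inl q) → B.Reach I (Sum.inl q) (Sum.inr r) →
    Thrifty n I (B.label q)

end Pool.Agent.MP_47ff19_lc
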