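import Pool.Agent.MP_47ff19_lc.Defs

/-!
Straight-line nondeterministic programs and their compilation to branching programs.
-/

namespace Pool.Agent.MP_47ff19_lc

/-- One query: from a register content enter a query state, query its variable, and leave. -/
structure Instr (V T M : Type) (k : ℕ) where
  label : M → V
  enter : T → M → Prop
  leave : M → Fin k → T → Prop

variable {V V' T M R : Type} {k : ℕ}

/-- A run of a list of instructions, with the list of the queried variables. -/
inductive Run (I : V → Fin k) : List (Instr V T M k) → T → List V → T → Prop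
  | nil (t : T) : Run I [] t [] t
  | cons {ins : Instr V T M k} {p : List (Instr V T M k)} {t : T} {m : M} {t' : T} {l : List V}
      {t'' : T} : ins.enter t m → ins.leave m (I (ins.label m)) t' → Run I p t' l t'' →
      Run I (ins :: p) t (ins.label m :: l) t''

theorem run_nil {I : V → Fin k} {t t' : T} {l : List V} :
    Run I ([] : List (Instr V T M k)) t l t' ↔ l = [] ∧ t' = t := by
  constructor
  · intro h; cases h; exact ⟨rfl, rfl⟩
  · rintro ⟨rfl, rfl⟩; exact Run.nil _

theorem run_cons {I : V → Fin k} {ins : Instr V T M k} {p : List (Instr V T M k)} {t t'' : T}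
    {l : List V} : Run I (ins :: p) t l t'' ↔ ∃ m t' l', l = ins.label m :: l' ∧ ins.enter t m ∧
      ins.leave m (I (ins.label m)) t' ∧ Run I p t' l' t'' := by
  constructor
  · intro h
    cases h with
    | cons h1 h2 h3 => exact ⟨_, _, _, rfl, h1, h2, h3⟩
  · rintro ⟨m, t', l', rfl, h1, h2, h3⟩; exact Run.cons h1 h2 h3

theorem run_append {I : V → Fin k} {p q : List (Instr V T M k)} {t t'' : T} {l : List V} :
    Run I (p ++ q) t l t'' ↔ ∃ t' l1 l2, l = l1 ++ l2 ∧ Run I p t l1 t' ∧ Run I q t' l2 t'' := by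
  induction p generalizing t l with
  | nil =>
    simp only [List.nil_append, run_nil]
    constructor
    · intro h; exact ⟨t, [], l, rfl, ⟨rfl, rfl⟩, h⟩
    · rintro ⟨t', l1, l2, rfl, ⟨rfl, rfl⟩, h⟩; exact h
  | cons ins p ih =>
    simp only [List.cons_append, run_cons, ih]
    constructor
    · rintro ⟨m, t1, l', rfl, h1, h2, t', l1, l2, rfl, h3, h4⟩
      exact ⟨t', ins.label m :: l1, l2, rfl, ⟨m, t1, l1, rfl, h1, h2, h3⟩, h4⟩
    · rintro ⟨t', l1, l2, rfl, ⟨m, t1, l', rfl, h1, h2, h3⟩, h4⟩
      exact ⟨m, t1, l' ++ l2, rfl, h1, h2, t', l', l2, rfl, h3, h4⟩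

/-- Rename the variables and permute the register contents. -/
def Instr.map (f : V → V') (σ : T ≃ T) (ins : Instr V T M k) : Instr V' T M k where
  label m := f (ins.label m)
  enter t m := ins.enter (σ t) m
  leave m y t := ins.leave m y (σ t)

theorem run_map {I : V' → Fin k} (f : V → V') (σ : T ≃ T) {p : List (Instr V T M k)} {t t' : T}
    {l : List V'} : Run I (p.map (Instr.map f σ)) t l t' ↔
      ∃ l0, l = l0.map f ∧ Run (fun v => I (f v)) p (σ t) l0 (σ t') := by
  induction p generalizing t l with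
  | nil =>
    simp only [List.map_nil, run_nil]
    constructor
    · rintro ⟨rfl, rfl⟩; exact ⟨[], rfl, rfl, rfl⟩
    · rintro ⟨l0, rfl, rfl, h⟩; exact ⟨rfl, σ.injective h⟩
  | cons ins p ih =>
    simp only [List.map_cons, run_cons, ih]
    constructor
    · rintro ⟨m, t1, l', rfl, h1, h2, l0, rfl, h3⟩
      exact ⟨ins.label m :: l0, rfl, m, σ t1, l0, rfl, h1, h2, h3⟩
    · rintro ⟨l0, rfl, m, t1, l', rfl, h1, h2, h3⟩
      obtain ⟨t1, rfl⟩ := σ.surjective t1
      exact ⟨m, t1, l'.map f, rfl, h1, h2, l', rfl, h3⟩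

/-- The edges of the branching program of a list of instructions. -/
def cedge (p : List (Instr V T M k)) (out : T → R → Prop) (q : Fin p.length × M) (y : Fin k) :
    (Fin p.length × M) ⊕ R → Prop
  | Sum.inl q' => q'.1.val = q.1.val + 1 ∧ ∃ t, p[q.1].leave q.2 y t ∧ p[q'.1].enter t q'.2
  | Sum.inr r => p.length = q.1.val + 1 ∧ ∃ t, p[q.1].leave q.2 y t ∧ out t r

/-- One step of the branching program of a list of instructions. -/
def cstep (p : List (Instr V T M k)) (out : T → R → Prop) (I : V → Fin k)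
    (s t : (Fin p.length × M) ⊕ R) : Prop :=
  ∃ q, s = Sum.inl q ∧ cedge p out q (I (p[q.1].label q.2)) t

theorem cfwd {p : List (Instr V T M k)} {out : T → R → Prop} {I : V → Fin k} {t0 : T}
    {q0 : Fin p.length × M} (h0 : q0.1.val = 0) (he : p[q0.1].enter t0 q0.2)
    {s : (Fin p.length × M) ⊕ R} (h : Relation.ReflTransGen (cstep p out I) (Sum.inl q0) s) :
    ∀ q, s = Sum.inl q → ∃ l t, Run I (p.take q.1.val) t0 l t ∧ p[q.1].enter t q.2 := by
  induction h with
  | refl =>
    intro q hq
    obtain rfl := Sum.inl_injective hq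
    exact ⟨[], t0, by rw [h0]; exact Run.nil _, he⟩
  | tail _ hs ih =>
    intro q hq
    subst hq
    obtain ⟨q1, rfl, hi, t, h1, h2⟩ := hs
    obtain ⟨l, t1, h3, h4⟩ := ih q1 rfl
    refine ⟨l ++ [p[q1.1].label q1.2], t, ?_, h2⟩
    rw [hi, List.take_add_one, List.getElem?_eq_getElem q1.1.2]
    exact run_append.2 ⟨t1, l, _, rfl, h3, Run.cons h4 h1 (Run.nil _)⟩

theorem cbwd {p : List (Instr V T M k)} {out : T → R → Prop} {I : V → Fin k} {r : R}
    {s : (Fin p.length × M) ⊕ R} (h : Relation.ReflTransGen (cstep p out I) s (Sum.inr r)) :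
    ∀ q, s = Sum.inl q → ∃ t l t', p[q.1].leave q.2 (I (p[q.1].label q.2)) t ∧
      Run I (p.drop (q.1.val + 1)) t l t' ∧ out t' r := by
  induction h using Relation.ReflTransGen.head_induction_on with
  | refl => intro q hq; cases hq
  | @head a c hs hrest ih =>
    intro q hq
    subst hq
    obtain ⟨q1, hq1, hs⟩ := hs
    obtain rfl := Sum.inl_injective hq1
    cases c with
    | inl q' =>
      obtain ⟨hi, t, h1, h2⟩ := hs
      obtain ⟨t1, l, t', h3, h4, h5⟩ := ih q' rfl
      refine ⟨t, p[q'.1].label q'.2 :: l, t', h1, ?_, h5⟩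
      rw [← hi, List.drop_eq_getElem_cons q'.1.2]
      exact Run.cons h2 h3 h4
    | inr r' =>
      obtain ⟨hi, t, h1, h2⟩ := hs
      have : r' = r := by
        cases hrest using Relation.ReflTransGen.head_induction_on with
        | refl => rfl
        | head h _ => obtain ⟨_, h, _⟩ := h; cases h
      subst this
      refine ⟨t, [], t, h1, ?_, h2⟩
      rw [← hi, List.drop_length]
      exact Run.nil _

theorem ccomplete {p : List (Instr V T M k)} {out : T → R → Prop} {I : V → Fin k} {r : R} {t' : T}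
    (ho : out t' r) : ∀ (j : ℕ) (i : Fin p.length) (t : T) (l : List V), p.length = i.val + j + 1 →
      Run I (p.drop i.val) t l t' → ∃ m, p[i].enter t m ∧
        Relation.ReflTransGen (cstep p out I) (Sum.inl (i, m)) (Sum.inr r) := by
  intro j
  induction j with
  | zero =>
    intro i t l hl h
    rw [List.drop_eq_getElem_cons i.2, run_cons] at h
    obtain ⟨m, t1, l', -, h1, h2, h3⟩ := h
    rw [← show p.length = i.val + 1 by omega, List.drop_length, run_nil] at h3
    obtain ⟨-, rfl⟩ := h3
    exact ⟨m, h1, Relation.ReflTransGen.single ⟨(i, m), rfl, by omega, t', h2, ho⟩⟩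
  | succ j ih =>
    intro i t l hl h
    rw [List.drop_eq_getElem_cons i.2, run_cons] at h
    obtain ⟨m, t1, l', -, h1, h2, h3⟩ := h
    obtain ⟨m', h4, h5⟩ := ih ⟨i.val + 1, by omega⟩ t1 l' (by simp only; omega) h3
    exact ⟨m, h1, Relation.ReflTransGen.head
      ⟨(i, m), rfl, (show cedge p out (i, m) _ (Sum.inl (⟨i.val + 1, by omega⟩, m')) from
        ⟨rfl, t1, h2, h4⟩)⟩ h5⟩

theorem rtg_lift {α β : Type} {r : α → α → Prop} {p : β → β → Prop} (f : α → β)
    (h : ∀ a b, r a b → p (f a) (f b)) {a b : α} (hab : Relation.ReflTransGen r a b) :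
    Relation.ReflTransGen p (f a) (f b) := by
  induction hab with
  | refl => exact Relation.ReflTransGen.refl
  | tail _ h2 ih => exact ih.tail (h _ _ h2)

/-- A branching program on an arbitrary finite set of non-final states. -/
theorem exists_nbp {Q : Type} [Fintype Q] (q0 : Q) (label : Q → V) (edge : Q → Fin k → Q ⊕ R → Prop)
    (g : (V → Fin k) → R) (G : (V → Fin k) → V → Prop)
    (hc : ∀ I r, Relation.ReflTransGen (fun s t => ∃ q, s = Sum.inl q ∧ edge q (I (label q)) t)
      (Sum.inl q0) (Sum.inr r) ↔ r = g I)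
    (ht : ∀ I q r, Relation.ReflTransGen (fun s t => ∃ q, s = Sum.inl q ∧ edge q (I (label q)) t)
      (Sum.inl q0) (Sum.inl q) →
      Relation.ReflTransGen (fun s t => ∃ q, s = Sum.inl q ∧ edge q (I (label q)) t)
      (Sum.inl q) (Sum.inr r) → G I (label q)) :
    ∃ B : NBP V R k, B.inner = Fintype.card Q ∧ B.Computes g ∧
      ∀ I q r, B.Reach I B.start (Sum.inl q) → B.Reach I (Sum.inl q) (Sum.inr r) →
        G I (B.label q) := by
  let e := Fintype.equivFin Q
  let B : NBP V R k := ⟨Fintype.card Q, Sum.inl (e q0), fun i => label (e.symm i),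
    fun i y s => edge (e.symm i) y (Sum.map e.symm id s)⟩
  have key : ∀ I s t, B.Reach I s t ↔
      Relation.ReflTransGen (fun s t => ∃ q, s = Sum.inl q ∧ edge q (I (label q)) t)
        (Sum.map e.symm id s) (Sum.map e.symm id t) := by
    intro I s t
    constructor
    · intro h
      refine rtg_lift (Sum.map e.symm id) ?_ h
      rintro a b ⟨q, rfl, hq⟩
      exact ⟨e.symm q, rfl, hq⟩
    · intro h
      have h2 := rtg_lift
        (r := fun s t => ∃ q, s = Sum.inl q ∧ edge q (I (label q)) t)
        (p := fun s t => ∃ q, s = Sum.inl q ∧ B.edge q (I (B.label q)) t) (Sum.map e id) (by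
          rintro a b ⟨q, rfl, hq⟩
          refine ⟨e q, rfl, ?_⟩
          show edge (e.symm (e q)) (I (label (e.symm (e q)))) (Sum.map e.symm id (Sum.map e id b))
          rw [e.symm_apply_apply]
          cases b <;> simpa using hq) h
      have h3 : ∀ u : Fin (Fintype.card Q) ⊕ R, Sum.map e id (Sum.map e.symm id u) = u := by
        intro u; cases u <;> simp
      rw [h3, h3] at h2
      exact h2
  refine ⟨B, rfl, fun I r => ?_, fun I q r h1 h2 => ?_⟩
  · rw [key, ← hc]
    simp [B]
  · rw [key] at h1 h2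
    refine ht I (e.symm q) r ?_ h2
    simpa [B] using h1

/-- Compilation of a list of instructions whose first instruction has a unique entry state. -/
theorem compile [Fintype M] (ins : Instr V T M k) (p : List (Instr V T M k)) (t0 : T) (m0 : M)
    (h0 : ∀ m, ins.enter t0 m ↔ m = m0) (out : T → R → Prop) (g : (V → Fin k) → R)
    (G : (V → Fin k) → V → Prop)
    (hs : ∀ I l t r, Run I (ins :: p) t0 l t → out t r → r = g I ∧ ∀ v ∈ l, G I v)
    (hc : ∀ I, ∃ l t, Run I (ins :: p) t0 l t ∧ out t (g I)) :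
    ∃ B : NBP V R k, B.inner = (p.length + 1) * Fintype.card M ∧ B.Computes g ∧
      ∀ I q r, B.Reach I B.start (Sum.inl q) → B.Reach I (Sum.inl q) (Sum.inr r) →
        G I (B.label q) := by
  have full : ∀ I (q : Fin (ins :: p).length × M) r,
      Relation.ReflTransGen (cstep (ins :: p) out I) (Sum.inl (⟨0, by simp⟩, m0)) (Sum.inl q) →
      Relation.ReflTransGen (cstep (ins :: p) out I) (Sum.inl q) (Sum.inr r) →
      r = g I ∧ G I ((ins :: p)[q.1].label q.2) := by
    intro I q r h1 h2
    obtain ⟨l1, t1, h3, h4⟩ := cfwd (p := ins :: p) (t0 := t0) (q0 := (⟨0, by simp⟩, m0)) rfl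
      ((h0 m0).2 rfl) h1 q rfl
    obtain ⟨t2, l2, t3, h5, h6, h7⟩ := cbwd h2 q rfl
    have h8 : Run I (ins :: p) t0 (l1 ++ (ins :: p)[q.1].label q.2 :: l2) t3 := by
      have : Run I ((ins :: p).take q.1.val ++ (ins :: p).drop q.1.val) t0
          (l1 ++ (ins :: p)[q.1].label q.2 :: l2) t3 := by
        rw [List.drop_eq_getElem_cons q.1.2]
        exact run_append.2 ⟨t1, l1, _, rfl, h3, Run.cons h4 h5 h6⟩
      rwa [List.take_append_drop] at this
    obtain ⟨h9, h10⟩ := hs I _ _ r h8 h7
    exact ⟨h9, h10 _ (by simp)⟩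
  obtain ⟨B, hB, h1, h2⟩ := exists_nbp (Q := Fin (ins :: p).length × M) (⟨0, by simp⟩, m0)
    (fun q => (ins :: p)[q.1].label q.2) (cedge (ins :: p) out) g G (by
      intro I r
      constructor
      · intro h
        exact (full I _ r Relation.ReflTransGen.refl h).1
      · rintro rfl
        obtain ⟨l, t, h1, h2⟩ := hc I
        obtain ⟨m, h3, h4⟩ := ccomplete (p := ins :: p) (I := I) h2 p.length ⟨0, by simp⟩ t0 l
          (by simp) h1
        obtain rfl := (h0 m).1 h3
        exact h4) (fun I q r h1 h2 => (full I q r h1 h2).2)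
  exact ⟨B, by rw [hB]; simp, h1, h2⟩

end Pool.Agent.MP_47ff19_lc
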