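import Pool.Agent.MP_47ff19_lc.Prog

/-!
The thrifty program for tree evaluation built from a checking gadget.
-/

namespace Pool.Agent.MP_47ff19_lc

/-- A checking gadget: two ways of storing a value in a register, forming induced matchings. -/
structure Gadget (k K g : ℕ) where
  L : ℕ → Fin k → ℕ
  R : ℕ → Fin k → ℕ
  L_inj : ∀ x c c', L c x = L c' x → c = c'
  R_inj : ∀ x c c', R c x = R c' x → c = c'
  rs : ∀ c c' c'' x x', L c x = L c' x' → R c' x' = R c'' x → x = x'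
  L_lt : ∀ i c x, c < K * g ^ i → L c x < K * g ^ (i + 1)
  R_lt : ∀ i c x, c < K * g ^ i → R c x < K * g ^ (i + 1)

/-- Three registers. -/
abbrev Reg (N : ℕ) : Type := Fin N × Fin N × Fin N

/-- Query states: three registers and two guessed values. -/
abbrev Mid (N k : ℕ) : Type := Reg N × Fin k × Fin k

/-- Exchange the first two registers. -/
def sw1 (N : ℕ) : Reg N ≃ Reg N where
  toFun t := (t.2.1, t.1, t.2.2)
  invFun t := (t.2.1, t.1, t.2.2)
  left_inv _ := rfl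
  right_inv _ := rfl

/-- Exchange the first and the last register. -/
def sw2 (N : ℕ) : Reg N ≃ Reg N where
  toFun t := (t.2.2, t.2.1, t.1)
  invFun t := (t.2.2, t.2.1, t.1)
  left_inv _ := rfl
  right_inv _ := rfl

variable {k K g N : ℕ}

/-- Read a leaf and update the first register. -/
def leafInstr (N : ℕ) (φ : ℕ → Fin k → ℕ → Prop) : Instr (Var k 0) (Reg N) (Mid N k) k where
  label _ := Var.leaf
  enter t m := m.1 = t
  leave m y t := φ m.1.1 y t.1 ∧ t.2 = m.1.2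

/-- Guess the values of the children, read the table of the node and update the registers. -/
def midInstr (G : Gadget k K g) (N n : ℕ) (φ : ℕ → Fin k → ℕ → Prop) :
    Instr (Var k (n + 1)) (Reg N) (Mid N k) k where
  label m := Var.node m.2.1 m.2.2
  enter t m := t.1 = m.1.1 ∧ t.2.1.val = G.L m.1.2.1 m.2.1 ∧ t.2.2.val = G.L m.1.2.2 m.2.2
  leave m y t := φ m.1.1 y t.1 ∧ t.2.1.val = G.R m.1.2.1 m.2.1 ∧ t.2.2.val = G.R m.1.2.2 m.2.2

/-- The program that updates the first register by the relation `φ` at the value of the root. -/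
def prog (G : Gadget k K g) (N : ℕ) :
    (n : ℕ) → (ℕ → Fin k → ℕ → Prop) → List (Instr (Var k n) (Reg N) (Mid N k) k)
  | 0, φ => [leafInstr N φ]
  | n + 1, φ =>
    ((prog G N n fun c x c' => c' = G.L c x).map (Instr.map Var.left (sw1 N)) ++
      (prog G N n fun c x c' => c' = G.L c x).map (Instr.map Var.right (sw2 N))) ++
    midInstr G N n φ ::
    ((prog G N n fun c x c' => c = G.R c' x).map (Instr.map Var.left (sw1 N)) ++
      (prog G N n fun c x c' => c = G.R c' x).map (Instr.map Var.right (sw2 N)))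

theorem prog_length (G : Gadget k K g) (N : ℕ) : ∀ (n : ℕ) (φ : ℕ → Fin k → ℕ → Prop),
    3 * (prog G N n φ).length + 1 = 4 ^ (n + 1)
  | 0, φ => by simp [prog]
  | n + 1, φ => by
    have h1 := prog_length G N n fun c x c' => c' = G.L c x
    have h2 := prog_length G N n fun c x c' => c = G.R c' x
    simp only [prog, List.length_append, List.length_map, List.length_cons]
    rw [pow_succ 4 (n + 1)]
    omega

theorem prog_sound (G : Gadget k K g) (N : ℕ) : ∀ (n : ℕ) (φ : ℕ → Fin k → ℕ → Prop)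
    (I : Var k n → Fin k) (t : Reg N) (l : List (Var k n)) (t' : Reg N),
    Run I (prog G N n φ) t l t' → φ t.1 (value n I) t'.1 ∧ t'.2 = t.2 ∧ ∀ v ∈ l, Thrifty n I v
  | 0, φ, I, t, l, t' => by
    intro h
    simp only [prog, run_cons, run_nil] at h
    obtain ⟨m, t1, l', rfl, h1, ⟨h2, h3⟩, rfl, rfl⟩ := h
    obtain rfl : m.1 = t := h1
    refine ⟨h2, h3, fun v hv => ?_⟩
    obtain rfl := List.mem_singleton.1 hv
    exact Thrifty.leaf I
  | n + 1, φ, I, t, l, t' => by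
    intro h
    simp only [prog, run_append, run_cons, run_map] at h
    obtain ⟨t2, _, _, rfl, ⟨t1, _, _, rfl, ⟨l1, rfl, h1⟩, l2, rfl, h2⟩, m, t3, _, rfl, he, hl, t4, _, _,
      rfl, ⟨l3, rfl, h3⟩, l4, rfl, h4⟩ := h
    obtain ⟨a1, b1, c1⟩ := prog_sound G N n _ _ _ _ _ h1
    obtain ⟨a2, b2, c2⟩ := prog_sound G N n _ _ _ _ _ h2
    obtain ⟨a3, b3, c3⟩ := prog_sound G N n _ _ _ _ _ h3
    obtain ⟨a4, b4, c4⟩ := prog_sound G N n _ _ _ _ _ h4
    obtain ⟨ta, tb, tc⟩ := t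
    obtain ⟨t1a, t1b, t1c⟩ := t1
    obtain ⟨t2a, t2b, t2c⟩ := t2
    obtain ⟨t3a, t3b, t3c⟩ := t3
    obtain ⟨t4a, t4b, t4c⟩ := t4
    obtain ⟨ua, ub, uc⟩ := t'
    obtain ⟨⟨ma, mb, mc⟩, x1, x2⟩ := m
    obtain ⟨e1, e2, e3⟩ := he
    obtain ⟨f1, f2, f3⟩ := hl
    simp only [sw1, sw2, Equiv.coe_fn_mk, Prod.mk.injEq, midInstr] at a1 b1 a2 b2 a3 b3 a4 b4 e1 e2 e3 f1 f2 f3
    obtain ⟨rfl, rfl⟩ := b1
    obtain ⟨rfl, rfl⟩ := b2
    obtain ⟨rfl, rfl⟩ := b3
    obtain ⟨rfl, rfl⟩ := b4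
    subst e1
    obtain rfl := G.rs _ _ _ _ _ (a1.symm.trans e2) (f2.symm.trans a3)
    obtain rfl := G.rs _ _ _ _ _ (a2.symm.trans e3) (f3.symm.trans a4)
    have g1 := G.L_inj _ _ _ (a1.symm.trans e2)
    have g2 := G.L_inj _ _ _ (a2.symm.trans e3)
    have g3 := G.R_inj _ _ _ (f2.symm.trans a3)
    have g4 := G.R_inj _ _ _ (f3.symm.trans a4)
    refine ⟨f1, Prod.ext (Fin.ext (g3.symm.trans g1.symm)) (Fin.ext (g4.symm.trans g2.symm)), ?_⟩
    intro v hv
    simp only [List.mem_append, List.mem_map, List.mem_cons] at hv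
    rcases hv with (⟨u, hu, rfl⟩ | ⟨u, hu, rfl⟩) | rfl | ⟨u, hu, rfl⟩ | ⟨u, hu, rfl⟩
    · exact Thrifty.left I u (c1 u hu)
    · exact Thrifty.right I u (c2 u hu)
    · exact Thrifty.node I
    · exact Thrifty.left I u (c3 u hu)
    · exact Thrifty.right I u (c4 u hu)

theorem prog_complete (G : Gadget k K g) (hg : 1 ≤ g) (x0 : Fin k) (H : ℕ) :
    ∀ (n : ℕ) (φ : ℕ → Fin k → ℕ → Prop) (I : Var k n → Fin k) (a b c a' : Fin (K * g ^ H)) (i : ℕ),
    i + n ≤ H → a.val < K * g ^ i → b.val < K * g ^ i → c.val < K * g ^ i → a'.val < K * g ^ i →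
    φ a (value n I) a' → ∃ l, Run I (prog G (K * g ^ H) n φ) (a, b, c) l (a', b, c)
  | 0, φ, I, a, b, c, a', i => by
    intro _ _ _ _ _ h
    exact ⟨_, Run.cons (ins := leafInstr _ φ) (m := ((a, b, c), x0, x0)) (t' := (a', b, c)) rfl
      ⟨h, rfl⟩ (Run.nil _)⟩
  | n + 1, φ, I, a, b, c, a', i => by
    intro hi ha hb hc ha' h
    have m1 : K * g ^ i ≤ K * g ^ (i + 1) :=
      Nat.mul_le_mul_left _ (Nat.pow_le_pow_right hg (by omega))
    have m2 : K * g ^ (i + 1) ≤ K * g ^ H :=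
      Nat.mul_le_mul_left _ (Nat.pow_le_pow_right hg (by omega))
    set x1 := value n fun v => I (Var.left v) with hx1
    set x2 := value n fun v => I (Var.right v) with hx2
    have p1 := G.L_lt i b x1 hb
    have p2 := G.L_lt i c x2 hc
    have p3 := G.R_lt i b x1 hb
    have p4 := G.R_lt i c x2 hc
    let b1 : Fin (K * g ^ H) := ⟨G.L b x1, by omega⟩
    let c1 : Fin (K * g ^ H) := ⟨G.L c x2, by omega⟩
    let b2 : Fin (K * g ^ H) := ⟨G.R b x1, by omega⟩
    let c2 : Fin (K * g ^ H) := ⟨G.R c x2, by omega⟩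
    obtain ⟨l1, h1⟩ := prog_complete G hg x0 H n (fun c x c' => c' = G.L c x)
      (fun v => I (Var.left v)) b a c b1 (i + 1) (by omega) (by omega) (by omega) (by omega) p1 rfl
    obtain ⟨l2, h2⟩ := prog_complete G hg x0 H n (fun c x c' => c' = G.L c x)
      (fun v => I (Var.right v)) c b1 a c1 (i + 1) (by omega) (by omega) p1 (by omega) p2 rfl
    obtain ⟨l3, h3⟩ := prog_complete G hg x0 H n (fun c x c' => c = G.R c' x)
      (fun v => I (Var.left v)) b2 a' c2 b (i + 1) (by omega) p3 (by omega) p4 (by omega) rfl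
    obtain ⟨l4, h4⟩ := prog_complete G hg x0 H n (fun c x c' => c = G.R c' x)
      (fun v => I (Var.right v)) c2 b a' c (i + 1) (by omega) p4 (by omega) (by omega) (by omega) rfl
    refine ⟨_, run_append.2 ⟨(a, b1, c1), _, _, rfl, run_append.2 ⟨(a, b1, c), _, _, rfl,
      (run_map _ _).2 ⟨l1, rfl, h1⟩, (run_map _ _).2 ⟨l2, rfl, h2⟩⟩,
      Run.cons (ins := midInstr G _ n φ) (m := ((a, b, c), x1, x2)) (t' := (a', b2, c2))
        ⟨rfl, rfl, rfl⟩ ⟨h, rfl, rfl⟩ (run_append.2 ⟨(a', b, c2), _, _, rfl,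
          (run_map _ _).2 ⟨l3, rfl, h3⟩, (run_map _ _).2 ⟨l4, rfl, h4⟩⟩)⟩⟩

/-- The leftmost leaf. -/
def firstLeaf (k : ℕ) : (n : ℕ) → Var k n
  | 0 => Var.leaf
  | n + 1 => Var.left (firstLeaf k n)

theorem thrifty_firstLeaf : ∀ (n : ℕ) (I : Var k n → Fin k), Thrifty n I (firstLeaf k n)
  | 0, I => Thrifty.leaf I
  | n + 1, I => Thrifty.left I _ (thrifty_firstLeaf n _)

/-- The thrifty branching program of a gadget. -/
theorem exists_thrifty (G : Gadget k K g) (hg : 1 ≤ g) (hk : 1 ≤ k) (hK : k ≤ K) (n : ℕ) (R : Type)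
    (π : Fin k → R) : ∃ B : NBP (Var k n) R k, B.Computes (fun I => π (value n I)) ∧ B.IsThrifty ∧
      B.inner ≤ 4 ^ (n + 1) * ((K * g ^ n) ^ 3 * k ^ 2) := by
  have hN : K ≤ K * g ^ n := Nat.le_mul_of_pos_right _ (Nat.pow_pos hg)
  let z : Fin (K * g ^ n) := ⟨0, by omega⟩
  let x0 : Fin k := ⟨0, hk⟩
  let ins : Instr (Var k n) (Reg (K * g ^ n)) (Mid (K * g ^ n) k) k :=
    ⟨fun _ => firstLeaf k n, fun _ m => m = ((z, z, z), x0, x0), fun _ _ t => t = (z, z, z)⟩
  obtain ⟨B, h1, h2, h3⟩ := compile ins (prog G (K * g ^ n) n fun _ y c' => c' = y.val) (z, z, z)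
    ((z, z, z), x0, x0) (fun _ => Iff.rfl) (fun t r => ∃ y : Fin k, t.1.val = y.val ∧ r = π y)
    (fun I => π (value n I)) (Thrifty n) (by
      intro I l t r h ⟨y, hy, hr⟩
      obtain ⟨m, t1, l', rfl, -, rfl, h4⟩ := run_cons.1 h
      obtain ⟨h5, -, h6⟩ := prog_sound G _ n _ I _ _ _ h4
      obtain rfl : y = value n I := Fin.ext (hy.symm.trans h5)
      refine ⟨hr, fun v hv => ?_⟩
      rcases List.mem_cons.1 hv with rfl | hv
      · exact thrifty_firstLeaf n I
      · exact h6 v hv) (by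
      intro I
      have hv := (value n I).2
      obtain ⟨l, h⟩ := prog_complete G hg x0 n n (fun _ y c' => c' = y.val) I z z z
        ⟨(value n I).val, by omega⟩ 0 (by omega) (by simp [z]; omega) (by simp [z]; omega)
        (by simp [z]; omega) (by simp; omega) rfl
      exact ⟨_, _, Run.cons (ins := ins) (m := ((z, z, z), x0, x0)) (t' := (z, z, z)) rfl rfl h,
        value n I, rfl, rfl⟩)
  refine ⟨B, h2, h3, ?_⟩
  rw [h1]
  have h4 := prog_length G (K * g ^ n) n fun _ y c' => c' = y.val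
  refine Nat.mul_le_mul (by omega) (le_of_eq ?_)
  simp only [Fintype.card_prod, Fintype.card_fin]
  ring

end Pool.Agent.MP_47ff19_lc
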